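import Pool.Agent.N643.NZ.Trans

/-!
# The integers with two irrational cyclic orders are NIP

For all irrational numbers `α`, `β` (linearly independent or not) the structure
`(ℤ; +, C_α, C_β)` is NIP: no formula has the independence property in a model of its complete
theory.

If `1, α, β` are linearly independent over `ℚ` then, by Kronecker's theorem, the multiples of
`(α, β)` are dense in the torus, and the starting library `R612.CO` shows that definable sets are
tame: unions of classes of an equivalence relation given by a modulus and the signs of finitely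
many rational linear combinations of `1` and of functions `fract (q(x) α)`, respectively
`fract (q(x) β)`, `q` a rational affine form. Otherwise `β = c₀ + c₁ α` with rational `c₀`, `c₁`, and
the same holds with `α` alone. The sign of such a function of two tuples `x`, `y` is determined by
finitely many relations of the form `0 < f(x) + h(y)` or `0 ≤ f(x) + h(y)`. A relation which is
determined by `m` threshold relations cuts out at most `(n + 1) ^ m` subsets of a set of `n` tuples,
hence it does not shatter large finite sets.
-/

set_option autoImplicit false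

universe u

namespace Pool.Agent.Results.MP_66c0d0_lc.TwoCyclicOrders

open FirstOrder FirstOrder.Language

/-- `a α`, `b α`, `c α` are in positive cyclic order modulo `1`. -/
def C (α : ℝ) (a b c : ℤ) : Prop :=
  (Int.fract (a * α) < Int.fract (b * α) ∧ Int.fract (b * α) < Int.fract (c * α)) ∨
  (Int.fract (b * α) < Int.fract (c * α) ∧ Int.fract (c * α) < Int.fract (a * α)) ∨
  (Int.fract (c * α) < Int.fract (a * α) ∧ Int.fract (a * α) < Int.fract (b * α))

/-- One binary function symbol. -/
inductive Fn : ℕ → Type
  | add : Fn 2

/-- Two ternary relation symbols. -/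
inductive Rl : ℕ → Type
  | fst : Rl 3
  | snd : Rl 3

/-- The language with one binary function symbol and two ternary relation symbols. -/
abbrev Lang : FirstOrder.Language.{0, 0} := ⟨Fn, Rl⟩

/-- The structure `(ℤ; +, C_α, C_β)`. -/
abbrev str (α β : ℝ) : Lang.Structure ℤ where
  funMap := fun {_} f v => match f with
    | Fn.add => v 0 + v 1
  RelMap := fun {_} r v => match r with
    | Rl.fst => C α (v 0) (v 1) (v 2)
    | Rl.snd => C β (v 0) (v 1) (v 2)

/-- The formula `φ(x; y)` in the tuples of variables `x`, `y` has the independence property in the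
structure `N`: there are tuples `a i`, `i ∈ ℕ`, and `b S`, `S ⊆ ℕ`, such that `φ(a i; b S)` holds if
and only if `i ∈ S`. -/
def HasIP {L : FirstOrder.Language.{0, 0}} (N : Type u) [L.Structure N] {m k : ℕ}
    (φ : L.Formula (Fin m ⊕ Fin k)) : Prop :=
  ∃ (a : ℕ → Fin m → N) (b : Set ℕ → Fin k → N), ∀ i S, φ.Realize (Sum.elim (a i) (b S)) ↔ i ∈ S

/-- The structure `S` on `ℤ` is NIP: no formula has the independence property in a model of the
complete theory of `S`. -/
def NIP (L : FirstOrder.Language.{0, 0}) (S : L.Structure ℤ) : Prop :=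
  ∀ (N : Type u) [L.Structure N] [N ⊨ L.completeTheory ℤ] (m k : ℕ)
    (φ : L.Formula (Fin m ⊕ Fin k)), ¬ HasIP N φ

theorem nip_of_tame {J : Type} [Finite J] [Nonempty J] {θ : J → ℝ} (hθ : ∀ j, Irrational (θ j))
    (hd : Pool.Agent.R612.CO.Dense θ) {α β : ℝ}
    (h1 : Pool.Agent.R612.CO.Tame θ {x : Fin 3 → ℤ | Pool.Agent.R612.CO.Cyc α (x 0) (x 1) (x 2)})
    (h2 : Pool.Agent.R612.CO.Tame θ {x : Fin 3 → ℤ | Pool.Agent.R612.CO.Cyc β (x 0) (x 1) (x 2)}) :
    NIP.{u} Lang (str α β) := by
  let _ : Lang.Structure ℤ := str α β
  intro N _ _ m k φ ⟨a, b, hab⟩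
  have ht := Pool.Agent.R612.CO.tame_formula (θ := θ) hθ hd (L := Lang) (by
    rintro n (_ | _)
    exact (Pool.Agent.R612.CO.isIntForm_var 0).add (Pool.Agent.R612.CO.isIntForm_var 1)) (by
    rintro n (_ | _)
    · exact h1
    · exact h2) (α := Fin m ⊕ Fin k) (n := 0) φ
  have ht' := ht.reindex (Sum.elim id Fin.elim0 : (Fin m ⊕ Fin k) ⊕ Fin 0 → Fin m ⊕ Fin k)
  obtain ⟨n, hn⟩ := Pool.Agent.N643.NZ.tame_nip ht'
  obtain ⟨a', b', h'⟩ := Pool.Agent.N643.NZ.transfer ℤ N φ a b hab n
  refine hn a' b' fun i s => ?_
  rw [← h' i s]
  show BoundedFormula.Realize φ _ _ ↔ BoundedFormula.Realize φ _ _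
  have e : (default : Fin 0 → ℤ) = fun i => Fin.elim0 i := funext fun i => Fin.elim0 i
  apply iff_of_eq
  congr 1
  funext i
  exact Fin.elim0 i

/-- For all irrational numbers `α`, `β` the structure `(ℤ; +, C_α, C_β)` is NIP. -/
theorem result (α β : ℝ) (hα : Irrational α) (hβ : Irrational β) : NIP.{u} Lang (str α β) := by
  by_cases hdep : ∃ c0 c1 : ℚ, β = c0 + c1 * α
  · obtain ⟨c0, c1, h⟩ := hdep
    refine nip_of_tame (θ := fun _ : Unit => α) (fun _ => hα)
      (Pool.Agent.R612.CO.dense_unit hα) ?_ ?_
    · exact Pool.Agent.R612.CO.tame_cyc () 0 1 (by simp)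
    · exact Pool.Agent.R612.CO.tame_cyc () c0 c1 h
  · push Not at hdep
    have hd : Pool.Agent.R612.CO.Dense (fun j : Bool => if j then α else β) := by
      refine Pool.Agent.R612.CO.dense_of_indep fun n m h => ?_
      rw [Fintype.sum_bool] at h
      simp only [if_true, Bool.false_eq_true, if_false] at h
      have hb : n false = 0 := by
        by_contra hne
        have hne' : ((n false : ℤ) : ℝ) ≠ 0 := by exact_mod_cast hne
        refine hdep (m / n false) (-(n true) / n false) ?_
        push_cast
        field_simp
        linarith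
      have ha : n true = 0 := by
        by_contra hne
        have hne' : ((n true : ℤ) : ℝ) ≠ 0 := by exact_mod_cast hne
        rw [hb] at h
        refine hα ⟨m / n true, ?_⟩
        push_cast at h ⊢
        rw [div_eq_iff hne']
        linarith
      funext j
      rcases j with _ | _
      · exact hb
      · exact ha
    refine nip_of_tame (θ := fun j : Bool => if j then α else β) ?_ hd ?_ ?_
    · rintro (_ | _)
      · simpa using hβ
      · simpa using hα
    · exact Pool.Agent.R612.CO.tame_cyc true 0 1 (by simp)
    · exact Pool.Agent.R612.CO.tame_cyc false 0 1 (by simp)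

end Pool.Agent.Results.MP_66c0d0_lc.TwoCyclicOrders
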